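import Pool.Agent.Lib.MP_2757db_lc.Counter
import Pool.Agent.Lib.MP_2757db_lc.MA

set_option autoImplicit false

open Cardinal

universe u

/-- The Continuum Hypothesis gives a Lindelöf tree whose square is not Lindelöf, while Martin's
axiom for `ℵ₁` dense sets makes the square of every Lindelöf tree Lindelöf. -/
theorem Pool.Agent.Results.MP_2757db_lc.Independence.result :
    ((𝔠 : Cardinal.{0}) = ℵ₁ →
      ∃ (T : Type) (_ : PartialOrder T), MP2757db.IsTree T ∧
        MP2757db.Lindelof (MP2757db.fineWedge T) ∧
        ¬ MP2757db.Lindelof (MP2757db.squareTopology T)) ∧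
    (MP2757db.MartinAxiomAlephOne.{u} →
      ∀ (T : Type u) [PartialOrder T], MP2757db.IsTree T →
        MP2757db.Lindelof (MP2757db.fineWedge T) →
        MP2757db.Lindelof (MP2757db.squareTopology T)) :=
  ⟨MP2757db.counter, fun hMA _ _ hT hL => MP2757db.positive hMA hT hL⟩
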